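import Pool.Agent.Helper11.EA.Step

/-! Project EA: iteration of `step` over the blocks (abstract form, for `one_N` and its variants). -/

set_option autoImplicit false

namespace Pool.Agent.Helper51.EA

open Finset Pool.Agent.Helper5.RM Pool.Agent.Helper11.RL

/-- the truncated weights: `P b` the blocks, `a b p j T` the coefficients, `ℓ b` the levels -/
noncomputable def wt11 (P : ℕ → Finset ℕ) (a : ℕ → ℕ → ℕ → Finset ℕ → ℝ) (lam s : ℝ) (ℓ : ℕ → ℝ) (j : ℕ)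
    (T : Finset ℕ) : ℕ → ℝ
  | 0 => 1
  | b + 1 => if |lam * ∑ p ∈ P b, sg T p * a b p j T - ℓ b| ≤ s then
      wt11 P a lam s ℓ j T b * ∏ p ∈ P b, (1 + sg T p * (lam * a b p j T)) else 0

/-- the conditions of `step` -/
def Gd11 (P : ℕ → Finset ℕ) (a : ℕ → ℕ → ℕ → Finset ℕ → ℝ) (lam τ : ℝ) (ℓ : ℕ → ℝ) (I : Finset ℕ) (b : ℕ)
    (T : Finset ℕ) : Prop :=
  ∀ j ∈ I, (∀ p ∈ P b, |lam * a b p j T| ≤ τ) ∧ |∑ p ∈ P b, (lam * a b p j T) ^ 2 - ℓ b| ≤ τ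

/-- one factor of the weight -/
lemma wfac (Q : Finset ℕ) (u : ℕ → ℝ) (T : Finset ℕ) (τ ℓ s : ℝ) (hτ0 : 0 < τ) (hτ1 : τ ≤ 1 / 2)
    (hτℓ : τ * (ℓ + 1) ≤ 1) (h1 : ∀ p ∈ Q, |u p| ≤ τ) (h2 : |∑ p ∈ Q, u p ^ 2 - ℓ| ≤ τ)
    (h3 : |∑ p ∈ Q, sg T p * u p - ℓ| ≤ s) :
    0 < ∏ p ∈ Q, (1 + sg T p * u p) ∧ ∏ p ∈ Q, (1 + sg T p * u p) ≤ Real.exp (ℓ / 2 + s + 2) := by
  have hab : ∀ p ∈ Q, |sg T p * u p| ≤ 1 / 2 := fun p hp => by
    rw [abs_mul, abs_sg, one_mul]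
    exact (h1 p hp).trans hτ1
  have hpos : ∀ p ∈ Q, 0 < 1 + sg T p * u p := fun p hp => by
    have := (abs_le.1 (hab p hp)).1
    linarith
  refine ⟨Finset.prod_pos hpos, ?_⟩
  have h4 : ∏ p ∈ Q, (1 + sg T p * u p) ≤
      ∏ p ∈ Q, Real.exp (sg T p * u p - (sg T p * u p) ^ 2 / 2 + |sg T p * u p| ^ 3) :=
    Finset.prod_le_prod (fun p hp => (hpos p hp).le) fun p hp => one_add_le_exp3 (hab p hp)
  refine h4.trans ?_
  rw [← Real.exp_sum]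
  apply Real.exp_le_exp.2
  rw [Finset.sum_add_distrib, Finset.sum_sub_distrib]
  have e1 : ∑ p ∈ Q, (sg T p * u p) ^ 2 / 2 = (∑ p ∈ Q, u p ^ 2) / 2 := by
    rw [Finset.sum_div]
    refine Finset.sum_congr rfl fun p _ => ?_
    rw [mul_pow, sg_sq, one_mul]
  have e2 : ∑ p ∈ Q, |sg T p * u p| ^ 3 ≤ τ * ∑ p ∈ Q, u p ^ 2 := by
    rw [Finset.mul_sum]
    refine Finset.sum_le_sum fun p hp => ?_
    rw [abs_mul, abs_sg, one_mul]
    have h5 : |u p| ^ 3 = |u p| * u p ^ 2 := by rw [← sq_abs (u p)]; ring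
    rw [h5]
    exact mul_le_mul_of_nonneg_right (h1 p hp) (sq_nonneg _)
  have h6 := abs_le.1 h2
  have h7 := abs_le.1 h3
  have h8 : τ * ∑ p ∈ Q, u p ^ 2 ≤ 1 := by
    refine le_trans (mul_le_mul_of_nonneg_left (?_ : ∑ p ∈ Q, u p ^ 2 ≤ ℓ + 1) hτ0.le) hτℓ
    linarith [h6.2]
  rw [e1]
  linarith [h6.1, h7.2]

/-- the weights are at most `exp (∑ (ℓ/2 + s + 2))`; a positive weight means that all the truncations hold -/
theorem wt_le11 (P : ℕ → Finset ℕ) (a : ℕ → ℕ → ℕ → Finset ℕ → ℝ) (lam s τ : ℝ) (ℓ : ℕ → ℝ) (I : Finset ℕ) (K : ℕ)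
    (hτ0 : 0 < τ) (hτ1 : τ ≤ 1 / 2) (hτℓ : ∀ b < K, τ * (ℓ b + 1) ≤ 1) (T : Finset ℕ)
    (hG : ∀ b < K, Gd11 P a lam τ ℓ I b T) : ∀ j ∈ I, 0 ≤ wt11 P a lam s ℓ j T K ∧
      wt11 P a lam s ℓ j T K ≤ Real.exp (∑ b ∈ range K, (ℓ b / 2 + s + 2)) ∧
      (0 < wt11 P a lam s ℓ j T K → ∀ b < K, |lam * ∑ p ∈ P b, sg T p * a b p j T - ℓ b| ≤ s) := by
  induction K with
  | zero =>
    intro j _
    simp [wt11]
  | succ K ih =>
    intro j hj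
    obtain ⟨i1, i2, i3⟩ := ih (fun b hb => hτℓ b (by omega)) (fun b hb => hG b (by omega)) j hj
    rw [wt11, Finset.sum_range_succ, Real.exp_add]
    split_ifs with h
    · have h1 := (hG K (by omega) j hj)
      have e1 : ∑ p ∈ P K, sg T p * (lam * a K p j T) = lam * ∑ p ∈ P K, sg T p * a K p j T := by
        rw [Finset.mul_sum]
        exact Finset.sum_congr rfl fun p _ => by ring
      obtain ⟨f1, f2⟩ := wfac (P K) (fun p => lam * a K p j T) T τ (ℓ K) s hτ0 hτ1 (hτℓ K (by omega)) h1.1 h1.2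
        (by rw [e1]; exact h)
      refine ⟨mul_nonneg i1 f1.le, mul_le_mul i2 f2 f1.le (Real.exp_pos _).le, fun hp b hb => ?_⟩
      rcases Nat.lt_succ_iff_lt_or_eq.1 hb with h2 | h2
      · exact i3 (pos_of_mul_pos_left hp f1.le) b h2
      · rw [h2]; exact h
    · exact ⟨le_rfl, by positivity, fun hp => absurd hp (lt_irrefl 0)⟩

/-- iteration of `step` -/
theorem iterate11 (S : Finset ℕ) (P : ℕ → Finset ℕ) (a : ℕ → ℕ → ℕ → Finset ℕ → ℝ) (J K : ℕ) (I : Finset ℕ)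
    (hI : I ⊆ range J) (hIn : I.Nonempty) (lam s τ ϑ : ℝ) (ℓ A : ℕ → ℝ)
    (hPS : ∀ b < K, P b ⊆ S) (hdis : ∀ b < K, ∀ b' < K, b ≠ b' → Disjoint (P b) (P b'))
    (hpr : ∀ b < K, ∀ p ∈ P b, ∀ j, ∀ b' < K, b ≤ b' → ∀ T, a b p j T = a b p j (T \ P b'))
    (hlam : 0 < lam) (hA : ∀ b < K, 0 ≤ A b)
    (ho : ∀ b < K, ∀ p ∈ P b, ∀ p' ∈ P b, p ≠ p' → ∀ T, ∑ j ∈ range J, a b p j T * a b p' j T = 0)
    (hn : ∀ b < K, ∀ p ∈ P b, ∀ T, ∑ j ∈ range J, a b p j T ^ 2 ≤ J * A b)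
    (hτ0 : 0 < τ) (hτ1 : τ ≤ 1 / 2) (hℓ : ∀ b < K, 0 ≤ ℓ b) (hτℓ : ∀ b < K, τ * (ℓ b + 1) ≤ 1)
    (hϑ0 : 0 < ϑ) (hϑ1 : ϑ ≤ 1) :
    pr S (fun T => (∀ b < K, Gd11 P a lam τ ℓ I b T) ∧ ∑ j ∈ I, wt11 P a lam s ℓ j T K < (1 / 4) ^ K * I.card) ≤
      ∑ b ∈ range K, (4 * (lam ^ 2 * A b * J * Real.exp (∑ b' ∈ range b, (ℓ b' / 2 + s + 2)) *
          (1 + (ℓ b + 1) * Real.exp (ℓ b + 1))) / ((1 / 4) ^ b * I.card) +
        64 * Real.exp (-(ϑ * s) + ϑ ^ 2 * ℓ b / 2)) := by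
  classical
  have hIc : (0 : ℝ) < I.card := by exact_mod_cast hIn.card_pos
  set W : Finset ℕ → ℕ → ℝ := fun T b => ∑ j ∈ I, wt11 P a lam s ℓ j T b with hWdef
  set E : ℕ → Finset ℕ → Prop := fun b T => (∀ b' < b + 1, Gd11 P a lam τ ℓ I b' T) ∧
    (1 / 4) ^ b * (I.card : ℝ) ≤ W T b ∧ W T (b + 1) < (1 / 4) * W T b with hEdef
  have hstep : ∀ T ⊆ S, ((∀ b < K, Gd11 P a lam τ ℓ I b T) ∧ ∑ j ∈ I, wt11 P a lam s ℓ j T K < (1 / 4) ^ K * I.card) →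
      ∃ b ∈ range K, E b T := by
    rintro T - ⟨hG, hlt⟩
    have hex : ∃ n, W T n < (1 / 4) ^ n * I.card := ⟨K, hlt⟩
    have hn0 : Nat.find hex ≠ 0 := by
      intro h0
      have h1 := Nat.find_spec hex
      rw [h0] at h1
      simp [hWdef, wt11] at h1
    obtain ⟨b, hb⟩ := Nat.exists_eq_succ_of_ne_zero hn0
    have hbK : b < K := by
      have := Nat.find_min' hex hlt
      omega
    have h2 := Nat.find_spec hex
    have h3 : ¬ W T b < (1 / 4) ^ b * I.card := Nat.find_min hex (by omega)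
    push Not at h3
    refine ⟨b, mem_range.2 hbK, fun b' hb' => hG b' (by omega), h3, ?_⟩
    rw [hb] at h2
    refine h2.trans_le ?_
    rw [Nat.succ_eq_add_one, pow_succ]
    nlinarith
  refine (pr_mono hstep).trans ((pr_exists S (range K) E).trans (Finset.sum_le_sum fun b hb => ?_))
  have hbK : b < K := mem_range.1 hb
  have hS : (S \ P b) ∪ P b = S := Finset.sdiff_union_of_subset (hPS b hbK)
  rw [← hS]
  refine pr_split_le Finset.sdiff_disjoint _ _ fun T0 hT0 => ?_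
  have herr : (0 : ℝ) ≤ 4 * (lam ^ 2 * A b * J * Real.exp (∑ b' ∈ range b, (ℓ b' / 2 + s + 2)) *
          (1 + (ℓ b + 1) * Real.exp (ℓ b + 1))) / ((1 / 4) ^ b * I.card) +
        64 * Real.exp (-(ϑ * s) + ϑ ^ 2 * ℓ b / 2) := by
    have := hA b hbK
    have := hℓ b hbK
    positivity
  have hT0d : ∀ q ∈ P b, q ∉ T0 := fun q hq h => (Finset.mem_sdiff.1 (hT0 h)).2 hq
  -- the union is `T0` outside the block
  have hsd : ∀ T1 ⊆ P b, (T0 ∪ T1) \ P b = T0 := by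
    intro T1 hT1
    ext q
    simp only [Finset.mem_sdiff, Finset.mem_union]
    constructor
    · rintro ⟨h | h, h2⟩
      · exact h
      · exact absurd (hT1 h) h2
    · exact fun h => ⟨Or.inl h, fun h2 => hT0d q h2 h⟩
  have hacong : ∀ T1 ⊆ P b, ∀ b' ≤ b, ∀ p ∈ P b', ∀ j, a b' p j (T0 ∪ T1) = a b' p j T0 := by
    intro T1 hT1 b' hb' p hp j
    rw [hpr b' (by omega) p hp j b hbK hb' (T0 ∪ T1), hsd T1 hT1]
  have hsg0 : ∀ T1 ⊆ P b, ∀ b' < b, ∀ p ∈ P b', sg (T0 ∪ T1) p = sg T0 p := by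
    intro T1 hT1 b' hb' p hp
    have h1 : p ∉ T1 := fun h =>
      Finset.disjoint_left.1 (hdis b' (by omega) b hbK (by omega)) hp (hT1 h)
    simp only [sg, Finset.mem_union, h1, or_false]
  have hsg1 : ∀ T1 ⊆ P b, ∀ p ∈ P b, sg (T0 ∪ T1) p = sg T1 p := by
    intro T1 hT1 p hp
    simp only [sg, Finset.mem_union, hT0d p hp, false_or]
  have hwcong : ∀ T1 ⊆ P b, ∀ b' ≤ b, ∀ j, wt11 P a lam s ℓ j (T0 ∪ T1) b' = wt11 P a lam s ℓ j T0 b' := by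
    intro T1 hT1 b'
    induction b' with
    | zero => intro _ j; rfl
    | succ b' ih =>
      intro hb' j
      have e1 : ∑ p ∈ P b', sg (T0 ∪ T1) p * a b' p j (T0 ∪ T1) = ∑ p ∈ P b', sg T0 p * a b' p j T0 :=
        Finset.sum_congr rfl fun p hp => by
          rw [hsg0 T1 hT1 b' (by omega) p hp, hacong T1 hT1 b' (by omega) p hp]
      have e2 : ∏ p ∈ P b', (1 + sg (T0 ∪ T1) p * (lam * a b' p j (T0 ∪ T1))) =
          ∏ p ∈ P b', (1 + sg T0 p * (lam * a b' p j T0)) :=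
        Finset.prod_congr rfl fun p hp => by
          rw [hsg0 T1 hT1 b' (by omega) p hp, hacong T1 hT1 b' (by omega) p hp]
      rw [wt11, wt11, e1, e2, ih (by omega) j]
  have hGcong : ∀ T1 ⊆ P b, ∀ b' ≤ b, Gd11 P a lam τ ℓ I b' (T0 ∪ T1) → Gd11 P a lam τ ℓ I b' T0 := by
    intro T1 hT1 b' hb' h j hj
    have h1 := h j hj
    refine ⟨fun p hp => ?_, ?_⟩
    · rw [← hacong T1 hT1 b' hb' p hp]; exact h1.1 p hp
    · have e1 : ∑ p ∈ P b', (lam * a b' p j T0) ^ 2 = ∑ p ∈ P b', (lam * a b' p j (T0 ∪ T1)) ^ 2 :=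
        Finset.sum_congr rfl fun p hp => by rw [hacong T1 hT1 b' hb' p hp]
      rw [e1]; exact h1.2
  by_cases hc : (∀ b' < b + 1, Gd11 P a lam τ ℓ I b' T0) ∧ (1 / 4) ^ b * (I.card : ℝ) ≤ W T0 b
  · obtain ⟨hG, hW⟩ := hc
    have hW0 : 0 < ∑ j ∈ I, wt11 P a lam s ℓ j T0 b := lt_of_lt_of_le (by positivity) hW
    have hwl := wt_le11 P a lam s τ ℓ I b hτ0 hτ1 (fun b' hb' => hτℓ b' (by omega)) T0 (fun b' hb' => hG b' (by omega))
    have hst := step (P b) (fun p j => a b p j T0) J I hI (fun j => wt11 P a lam s ℓ j T0 b) lam τ (ℓ b) s ϑ (A b)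
      (Real.exp (∑ b' ∈ range b, (ℓ b' / 2 + s + 2))) (fun j hj => (hwl j hj).1) (fun j hj => (hwl j hj).2.1) hW0
      hlam (hA b hbK) (fun p hp p' hp' hne => ho b hbK p hp p' hp' hne T0) (fun p hp => hn b hbK p hp T0)
      hτ0 hτ1 (fun p hp j hj => (hG b (by omega) j hj).1 p hp) (hℓ b hbK) (hτℓ b hbK)
      (fun j hj => (hG b (by omega) j hj).2) hϑ0 hϑ1
    refine le_trans (pr_mono fun T1 hT1 hE => ?_) (hst.trans ?_)
    · obtain ⟨-, -, hE3⟩ := hE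
      have e1 : W (T0 ∪ T1) b = ∑ j ∈ I, wt11 P a lam s ℓ j T0 b :=
        Finset.sum_congr rfl fun j _ => hwcong T1 hT1 b le_rfl j
      have e2 : W (T0 ∪ T1) (b + 1) = ∑ j ∈ I, (if |lam * ∑ p ∈ P b, sg T1 p * a b p j T0 - ℓ b| ≤ s then
          wt11 P a lam s ℓ j T0 b * ∏ p ∈ P b, (1 + sg T1 p * (lam * a b p j T0)) else 0) := by
        refine Finset.sum_congr rfl fun j _ => ?_
        have f1 : ∑ p ∈ P b, sg (T0 ∪ T1) p * a b p j (T0 ∪ T1) = ∑ p ∈ P b, sg T1 p * a b p j T0 :=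
          Finset.sum_congr rfl fun p hp => by
            rw [hsg1 T1 hT1 p hp, hacong T1 hT1 b le_rfl p hp]
        have f2 : ∏ p ∈ P b, (1 + sg (T0 ∪ T1) p * (lam * a b p j (T0 ∪ T1))) =
            ∏ p ∈ P b, (1 + sg T1 p * (lam * a b p j T0)) :=
          Finset.prod_congr rfl fun p hp => by
            rw [hsg1 T1 hT1 p hp, hacong T1 hT1 b le_rfl p hp]
        rw [wt11, f1, f2, hwcong T1 hT1 b le_rfl j]
      rw [e1, e2] at hE3
      exact hE3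
    · have h5 : (0 : ℝ) < (1 / 4) ^ b * I.card := by positivity
      have h6 : (0 : ℝ) ≤ 4 * (lam ^ 2 * A b * J * Real.exp (∑ b' ∈ range b, (ℓ b' / 2 + s + 2)) *
          (1 + (ℓ b + 1) * Real.exp (ℓ b + 1))) := by
        have := hA b hbK
        have := hℓ b hbK
        positivity
      have h7 := div_le_div_of_nonneg_left h6 h5 hW
      linarith
  · rw [pr_false (P b) (P := fun T1 => E b (T0 ∪ T1))]
    · exact herr
    · intro T1 hT1 hE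
      obtain ⟨hE1, hE2, -⟩ := hE
      apply hc
      refine ⟨fun b' hb' => hGcong T1 hT1 b' (by omega) (hE1 b' hb'), ?_⟩
      have e1 : W (T0 ∪ T1) b = W T0 b := Finset.sum_congr rfl fun j _ => hwcong T1 hT1 b le_rfl j
      rw [← e1]; exact hE2

end Pool.Agent.Helper51.EA
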