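import Mathlib

/-!
Project EA, last step of the thick points version: from the two one sided bounds (size of `{|G_N| ≥ r}`, size of
`{Re (u G_N) ≥ r}` in an interval) to the large deviation principle for open sets. Deterministic.
-/

set_option autoImplicit false

namespace Pool.Agent.Helper11.EA

open MeasureTheory Filter Topology Set

/-- upper bound for the set of large values -/
def UpB (rd : ℝ) (G : ℕ → ℝ → ℂ) : Prop := ∀ r η : ℝ, 0 ≤ r → r < rd → 0 < η → ∃ N0 : ℕ, ∀ N : ℕ, N0 ≤ N →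
  volume.real {x : ℝ | x ∈ Icc (0 : ℝ) 1 ∧ r ≤ ‖G N x‖} ≤ (N : ℝ) ^ (-(r ^ 2 / rd ^ 2) + η)

/-- no values larger than `rd` -/
def EmB (rd : ℝ) (G : ℕ → ℝ → ℂ) : Prop := ∀ r : ℝ, rd < r → ∃ N0 : ℕ, ∀ N : ℕ, N0 ≤ N → ∀ x : ℝ, ‖G N x‖ < r

/-- lower bound in a direction, in an interval -/
def LoB (rd : ℝ) (G : ℕ → ℝ → ℂ) : Prop := ∀ (a b : ℝ) (u : ℂ) (r η : ℝ), 0 ≤ a → a < b → b ≤ 1 → ‖u‖ = 1 → 0 < r → r < rd →
  0 < η → ∃ N0 : ℕ, ∀ N : ℕ, N0 ≤ N →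
    (N : ℝ) ^ (-(r ^ 2 / rd ^ 2) - η) ≤ volume.real {x : ℝ | x ∈ Ioo a b ∧ r ≤ (u * G N x).re}

lemma ev_half {a : ℝ} (ha : 0 < a) : ∃ N0 : ℕ, ∀ N : ℕ, N0 ≤ N → (N : ℝ) ^ (-a) ≤ 1 / 2 := by
  have h2 : Tendsto (fun x : ℝ => x ^ (-a)) atTop (𝓝 0) := tendsto_rpow_neg_atTop ha
  have h4 := h2.comp tendsto_natCast_atTop_atTop
  have h5 := h4.eventually (ge_mem_nhds (show (0 : ℝ) < 1 / 2 by norm_num))
  exact eventually_atTop.1 h5

lemma ev_lt {a t : ℝ} (ha : 0 < a) (ht : 0 < t) : ∃ N0 : ℕ, ∀ N : ℕ, N0 ≤ N → (N : ℝ) ^ (-a) ≤ t := by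
  have h2 : Tendsto (fun x : ℝ => x ^ (-a)) atTop (𝓝 0) := tendsto_rpow_neg_atTop ha
  have h4 := h2.comp tendsto_natCast_atTop_atTop
  have h5 := h4.eventually (ge_mem_nhds ht)
  exact eventually_atTop.1 h5

/-- a small disc -/
theorem small_disc {rd : ℝ} (hrd : 0 < rd) (G : ℕ → ℝ → ℂ) (hU : UpB rd G)
    (hL : LoB rd G) {a b : ℝ} (ha : 0 ≤ a) (hab : a < b) (hb : b ≤ 1) (z : ℂ) (hz : ‖z‖ < rd) (ε η : ℝ) (hε : 0 < ε)
    (hη : 0 < η) : ∃ N0 : ℕ, ∀ N : ℕ, N0 ≤ N →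
    (N : ℝ) ^ (-(‖z‖ ^ 2 / rd ^ 2) - η) ≤ volume.real {x : ℝ | x ∈ Ioo a b ∧ ‖G N x - z‖ < ε} := by
  have hsubI : Ioo a b ⊆ Icc (0 : ℝ) 1 := fun x hx => ⟨ha.trans hx.1.le, hx.2.le.trans hb⟩
  have hfin : ∀ s : Set ℝ, s ⊆ Icc (0 : ℝ) 1 → volume s ≠ ⊤ := fun s hs =>
    ((measure_mono hs).trans_lt (by simp)).ne
  rcases eq_or_ne z 0 with rfl | hz0
  · -- the centre
    simp only [norm_zero, sub_zero]
    obtain ⟨r, hr⟩ : ∃ r, r = min ε (rd / 2) := ⟨_, rfl⟩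
    have hr0 : 0 < r := by rw [hr]; exact lt_min hε (by positivity)
    have hr1 : r ≤ ε := by rw [hr]; exact min_le_left _ _
    have hr2 : r < rd := by rw [hr]; exact lt_of_le_of_lt (min_le_right _ _) (by linarith)
    obtain ⟨g, hg⟩ : ∃ g, g = r ^ 2 / rd ^ 2 := ⟨_, rfl⟩
    have hg0 : 0 < g := by rw [hg]; positivity
    obtain ⟨N1, h1⟩ := hU r (g / 2) hr0.le hr2 (by positivity)
    obtain ⟨N2, h2⟩ := ev_lt (a := g / 2) (t := (b - a) / 2) (by positivity) (by linarith)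
    obtain ⟨N3, h3⟩ := ev_lt (a := η) (t := (b - a) / 2) hη (by linarith)
    refine ⟨max N1 (max N2 N3), fun N hN => ?_⟩
    simp only [max_le_iff] at hN
    have k1 := h1 N hN.1
    have k2 := h2 N hN.2.1
    have k3 := h3 N hN.2.2
    rw [← hg] at k1
    have e1 : -g + g / 2 = -(g / 2) := by ring
    rw [e1] at k1
    have e2 : (-((0 : ℝ) ^ 2 / rd ^ 2) - η) = -η := by simp
    rw [e2]
    have k4 : volume.real (Ioo a b) ≤ volume.real {x : ℝ | x ∈ Ioo a b ∧ ‖G N x‖ < ε} +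
        volume.real {x : ℝ | x ∈ Icc (0 : ℝ) 1 ∧ r ≤ ‖G N x‖} := by
      refine le_trans (measureReal_mono ?_ ?_) (measureReal_union_le _ _)
      · intro x hx
        rcases lt_or_ge ‖G N x‖ r with h | h
        · exact Or.inl ⟨hx, h.trans_le hr1⟩
        · exact Or.inr ⟨hsubI hx, h⟩
      · refine hfin _ (union_subset (fun x hx => hsubI hx.1) (fun x hx => hx.1))
    rw [Real.volume_real_Ioo_of_le hab.le] at k4
    linarith
  · have hr0 : 0 < ‖z‖ := norm_pos_iff.2 hz0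
    obtain ⟨r, hr⟩ : ∃ r, r = ‖z‖ := ⟨_, rfl⟩
    rw [← hr] at hr0 hz ⊢
    obtain ⟨t, ht⟩ : ∃ t, t = min (min 1 ((rd - r) / 2)) (ε ^ 2 / (2 * rd + 1)) := ⟨_, rfl⟩
    have ht0 : 0 < t := by rw [ht]; exact lt_min (lt_min one_pos (by linarith)) (by positivity)
    have ht1 : t ≤ 1 := by rw [ht]; exact (min_le_left _ _).trans (min_le_left _ _)
    have ht2 : r + t < rd := by
      have : t ≤ (rd - r) / 2 := by rw [ht]; exact (min_le_left _ _).trans (min_le_right _ _)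
      linarith
    have ht3 : t * (2 * rd + 1) ≤ ε ^ 2 := by
      have : t ≤ ε ^ 2 / (2 * rd + 1) := by rw [ht]; exact min_le_right _ _
      rwa [le_div_iff₀ (by positivity)] at this
    have ht4 : 2 * r * t + t ^ 2 ≤ ε ^ 2 := by nlinarith
    obtain ⟨g, hg⟩ : ∃ g, g = (r + t) ^ 2 / rd ^ 2 - r ^ 2 / rd ^ 2 := ⟨_, rfl⟩
    have hg0 : 0 < g := by
      rw [hg, ← sub_div]
      have : 0 < (r + t) ^ 2 - r ^ 2 := by nlinarith
      positivity
    obtain ⟨η1, hη1⟩ : ∃ η1, η1 = min (η / 2) (g / 4) := ⟨_, rfl⟩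
    have hη10 : 0 < η1 := by rw [hη1]; exact lt_min (by positivity) (by positivity)
    have hη1a : η1 ≤ η / 2 := by rw [hη1]; exact min_le_left _ _
    have hη1b : η1 ≤ g / 4 := by rw [hη1]; exact min_le_right _ _
    have hu : ‖(starRingEnd ℂ) z / (r : ℂ)‖ = 1 := by
      rw [norm_div, Complex.norm_conj, Complex.norm_real, Real.norm_of_nonneg hr0.le, ← hr, div_self hr0.ne']
    obtain ⟨N1, h1⟩ := hL a b _ r η1 ha hab hb hu hr0 hz hη10
    obtain ⟨N2, h2⟩ := hU (r + t) η1 (by linarith) ht2 hη10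
    obtain ⟨N3, h3⟩ := ev_half (a := g / 2) (by positivity)
    obtain ⟨N4, h4⟩ := ev_half (a := η / 2) (by positivity)
    refine ⟨max (max N1 N2) (max N3 (max N4 1)), fun N hN => ?_⟩
    simp only [max_le_iff] at hN
    obtain ⟨⟨n1, n2⟩, n3, n4, n5⟩ := hN
    have hN0 : (0 : ℝ) < N := by exact_mod_cast (by omega : 0 < N)
    have hN1 : (1 : ℝ) ≤ N := by exact_mod_cast n5
    have k1 := h1 N n1
    have k2 := h2 N n2
    have k3 := h3 N n3
    have k4 := h4 N n4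
    obtain ⟨q, hq⟩ : ∃ q, q = r ^ 2 / rd ^ 2 := ⟨_, rfl⟩
    have hq2 : (r + t) ^ 2 / rd ^ 2 = q + g := by rw [hg, hq]; ring
    rw [hq2] at k2
    rw [← hq] at k1 ⊢
    have k5 : (N : ℝ) ^ (-(q + g) + η1) ≤ (N : ℝ) ^ (-q - η1) * (N : ℝ) ^ (-(g / 2)) := by
      rw [← Real.rpow_add hN0]
      refine Real.rpow_le_rpow_of_exponent_le hN1 ?_
      linarith
    have k6 : (N : ℝ) ^ (-q - η) ≤ (N : ℝ) ^ (-q - η1) * (N : ℝ) ^ (-(η / 2)) := by
      rw [← Real.rpow_add hN0]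
      refine Real.rpow_le_rpow_of_exponent_le hN1 ?_
      linarith
    have k7 : 0 < (N : ℝ) ^ (-q - η1) := by positivity
    have k8 : volume.real {x : ℝ | x ∈ Ioo a b ∧ r ≤ ((starRingEnd ℂ) z / (r : ℂ) * G N x).re} ≤
        volume.real {x : ℝ | x ∈ Ioo a b ∧ ‖G N x - z‖ < ε} +
        volume.real {x : ℝ | x ∈ Icc (0 : ℝ) 1 ∧ r + t ≤ ‖G N x‖} := by
      refine le_trans (measureReal_mono ?_ ?_) (measureReal_union_le _ _)
      · rintro x ⟨hx, hx2⟩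
        rcases lt_or_ge ‖G N x‖ (r + t) with h | h
        · left
          refine ⟨hx, ?_⟩
          have e1 : ((starRingEnd ℂ) z / (r : ℂ) * G N x).re = ((starRingEnd ℂ) z * G N x).re / r := by
            rw [div_mul_eq_mul_div, Complex.div_ofReal_re]
          rw [e1, le_div_iff₀ hr0] at hx2
          have e2 : ‖G N x - z‖ ^ 2 = ‖G N x‖ ^ 2 - 2 * ((starRingEnd ℂ) z * G N x).re + ‖z‖ ^ 2 := by
            rw [← Complex.normSq_eq_norm_sq, ← Complex.normSq_eq_norm_sq, ← Complex.normSq_eq_norm_sq,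
              Complex.normSq_sub, mul_comm ((starRingEnd ℂ) z) (G N x)]
            ring
          have h5 : ‖G N x‖ ^ 2 < (r + t) ^ 2 := pow_lt_pow_left₀ h (norm_nonneg _) (by norm_num)
          rw [← hr] at e2
          have h6 : ‖G N x - z‖ ^ 2 < ε ^ 2 := by rw [e2]; nlinarith
          exact lt_of_pow_lt_pow_left₀ 2 hε.le h6
        · exact Or.inr ⟨hsubI hx, h⟩
      · refine hfin _ (union_subset (fun x hx => hsubI hx.1) (fun x hx => hx.1))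
    nlinarith

/-- the large deviation principle for open sets -/
theorem ldp {rd : ℝ} (hrd : 0 < rd) (G : ℕ → ℝ → ℂ) (hU : UpB rd G) (hE : EmB rd G)
    (hL : LoB rd G) {a b : ℝ} (ha : 0 ≤ a) (hab : a < b) (hb : b ≤ 1) (O : Set ℂ) (hO : IsOpen O) :
    ((∃ z ∈ O, ‖z‖ < rd) → Tendsto (fun N : ℕ => Real.log (volume.real {x : ℝ | x ∈ Ioo a b ∧ G N x ∈ O}) / Real.log N)
      atTop (𝓝 (-((Metric.infDist 0 O) ^ 2 / rd ^ 2)))) ∧
    (rd < Metric.infDist 0 O → ∀ᶠ N : ℕ in atTop, ∀ x : ℝ, G N x ∉ O) := by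
  have hsubI : Ioo a b ⊆ Icc (0 : ℝ) 1 := fun x hx => ⟨ha.trans hx.1.le, hx.2.le.trans hb⟩
  have hfin : ∀ s : Set ℝ, s ⊆ Icc (0 : ℝ) 1 → volume s ≠ ⊤ := fun s hs =>
    ((measure_mono hs).trans_lt (by simp)).ne
  have hdist : ∀ z ∈ O, Metric.infDist 0 O ≤ ‖z‖ := fun z hz => by
    have := Metric.infDist_le_dist_of_mem (x := (0 : ℂ)) hz
    rwa [dist_zero_left] at this
  obtain ⟨d, hd⟩ : ∃ d, d = Metric.infDist (0 : ℂ) O := ⟨_, rfl⟩
  rw [← hd] at hdist ⊢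
  have hd0 : 0 ≤ d := by rw [hd]; exact Metric.infDist_nonneg
  constructor
  · rintro ⟨z0, hz0, hz0r⟩
    have hdr : d < rd := lt_of_le_of_lt (hdist z0 hz0) hz0r
    rw [Metric.tendsto_atTop]
    intro η hη
    -- a point of `O` of almost minimal norm
    obtain ⟨z, hz, hzr, hzd⟩ : ∃ z ∈ O, ‖z‖ < rd ∧ ‖z‖ ^ 2 / rd ^ 2 < d ^ 2 / rd ^ 2 + η / 4 := by
      have hcont : Tendsto (fun s : ℝ => s ^ 2 / rd ^ 2) (𝓝 d) (𝓝 (d ^ 2 / rd ^ 2)) :=
        (((continuous_pow 2).div_const _).tendsto d)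
      have h1 := hcont.eventually (gt_mem_nhds (show d ^ 2 / rd ^ 2 < d ^ 2 / rd ^ 2 + η / 4 by linarith))
      obtain ⟨δ, hδ, h2⟩ := Metric.eventually_nhds_iff.1 h1
      have h3 : d < min rd (d + δ) := lt_min hdr (by linarith)
      have h4 : Metric.infDist (0 : ℂ) O < min rd (d + δ) := by rw [← hd]; exact h3
      obtain ⟨z, hz, h5⟩ := (Metric.infDist_lt_iff ⟨z0, hz0⟩).1 h4
      rw [dist_zero_left] at h5
      refine ⟨z, hz, h5.trans_le (min_le_left _ _), ?_⟩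
      refine h2 ?_
      rw [Real.dist_eq, abs_lt]
      have h6 := hdist z hz
      have h7 := h5.trans_le (min_le_right _ _)
      constructor <;> linarith
    obtain ⟨ε, hε, hball⟩ := Metric.isOpen_iff.1 hO z hz
    obtain ⟨N1, h1⟩ := small_disc hrd G hU hL ha hab hb z hzr ε (η / 4) hε (by positivity)
    obtain ⟨N2, h2⟩ := hU d (η / 2) hd0 hdr (by positivity)
    refine ⟨max N1 (max N2 2), fun N hN => ?_⟩
    simp only [ge_iff_le, max_le_iff] at hN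
    obtain ⟨n1, n2, n3⟩ := hN
    have hN0 : (0 : ℝ) < N := by exact_mod_cast (by omega : 0 < N)
    have hL0 : 0 < Real.log N := Real.log_pos (by exact_mod_cast (by omega : 1 < N))
    have k1 := h1 N n1
    have k2 := h2 N n2
    have k3 : volume.real {x : ℝ | x ∈ Ioo a b ∧ ‖G N x - z‖ < ε} ≤ volume.real {x : ℝ | x ∈ Ioo a b ∧ G N x ∈ O} := by
      refine measureReal_mono (fun x hx => ⟨hx.1, hball ?_⟩) (hfin _ fun x hx => hsubI hx.1)
      rw [Metric.mem_ball, dist_eq_norm]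
      exact hx.2
    have k4 : volume.real {x : ℝ | x ∈ Ioo a b ∧ G N x ∈ O} ≤ volume.real {x : ℝ | x ∈ Icc (0 : ℝ) 1 ∧ d ≤ ‖G N x‖} :=
      measureReal_mono (fun x hx => ⟨hsubI hx.1, hdist _ hx.2⟩) (hfin _ fun x hx => hx.1)
    set m := volume.real {x : ℝ | x ∈ Ioo a b ∧ G N x ∈ O} with hm
    have k5 : (N : ℝ) ^ (-(‖z‖ ^ 2 / rd ^ 2) - η / 4) ≤ m := k1.trans k3
    have k6 : m ≤ (N : ℝ) ^ (-(d ^ 2 / rd ^ 2) + η / 2) := k4.trans k2
    have hm0 : 0 < m := lt_of_lt_of_le (by positivity) k5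
    have l1 : (-(‖z‖ ^ 2 / rd ^ 2) - η / 4) * Real.log N ≤ Real.log m := by
      rw [← Real.log_rpow hN0]
      exact Real.log_le_log (by positivity) k5
    have l2 : Real.log m ≤ (-(d ^ 2 / rd ^ 2) + η / 2) * Real.log N := by
      rw [← Real.log_rpow hN0]
      exact Real.log_le_log hm0 k6
    have l3 : -(‖z‖ ^ 2 / rd ^ 2) - η / 4 ≤ Real.log m / Real.log N := by rwa [le_div_iff₀ hL0]
    have l4 : Real.log m / Real.log N ≤ -(d ^ 2 / rd ^ 2) + η / 2 := by rwa [div_le_iff₀ hL0]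
    rw [Real.dist_eq, abs_lt]
    constructor <;> linarith
  · intro h
    obtain ⟨N0, h0⟩ := hE d h
    filter_upwards [eventually_ge_atTop N0] with N hN x hx
    exact absurd (hdist _ hx) (not_le.2 (h0 N hN x))

end Pool.Agent.Helper11.EA
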