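import Pool.Agent.Helper11.EA.Ldp
import Pool.Agent.Helper51.EA.Defs

/-!
Project EA, T9: the one sided bounds for every level, direction and interval, almost surely at once; the large deviation
principle.
-/

set_option autoImplicit false

namespace Pool.Agent.Helper11.EA

open MeasureTheory Filter Topology Set Pool.Agent.Helper51.EA

/-- the radius `√6/π` -/
noncomputable def rd : ℝ := Real.sqrt 6 / Real.pi

lemma rd_pos : 0 < rd := by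
  unfold rd
  have := Real.pi_pos
  positivity

lemma rd_sq : rd ^ 2 = 6 / Real.pi ^ 2 := by
  unfold rd
  rw [div_pow, Real.sq_sqrt (by norm_num)]

lemma tg_eq (N : ℕ) : tg N = rd * Real.sqrt (N * Real.log N) := by
  unfold tg
  rw [Real.sqrt_mul (by positivity)]
  congr 1
  rw [← rd_sq, Real.sqrt_sq rd_pos.le]

lemma nrm_pos {N : ℕ} (hN : 2 ≤ N) : 0 < Real.sqrt (N * Real.log N) := by
  have h1 : 0 < Real.log N := Real.log_pos (by exact_mod_cast (by omega : 1 < N))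
  have h2 : (0 : ℝ) < N := by exact_mod_cast (by omega : 0 < N)
  exact Real.sqrt_pos.2 (by positivity)

/-- the normalised sums -/
noncomputable def nrm (F : ℕ → ℝ → ℂ) (N : ℕ) (x : ℝ) : ℂ := F N x / (Real.sqrt (N * Real.log N) : ℝ)

lemma norm_nrm (F : ℕ → ℝ → ℂ) (N : ℕ) (x : ℝ) : ‖nrm F N x‖ = ‖F N x‖ / Real.sqrt (N * Real.log N) := by
  unfold nrm
  rw [norm_div, Complex.norm_real, Real.norm_of_nonneg (Real.sqrt_nonneg _)]

/-- one `ω`: from countably many parameters to all, upper bound -/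
theorem upB_of (F : ℕ → ℝ → ℂ) (hU : ∀ δ r : ℚ, 0 < δ → 0 < r → r ≤ 1 → ∃ N0 : ℕ, ∀ N : ℕ, N0 ≤ N →
      (volume {x : ℝ | x ∈ Set.Ico (0 : ℝ) 1 ∧ (r : ℝ) * (1 + δ) * tg N ≤ ‖F N x‖}).toReal ≤
        (N : ℝ) ^ (-((r : ℝ) ^ 2) + δ)) : UpB rd (nrm F) := by
  intro s η hs0 hs1 hη
  have hrd := rd_pos
  have hvol1 : ∀ A : Set ℝ, A ⊆ Icc (0 : ℝ) 1 → volume.real A ≤ 1 := fun A hA => by
    refine (measureReal_mono hA (by simp)).trans ?_
    rw [Real.volume_real_Icc_of_le (by norm_num)]; norm_num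
  rcases eq_or_lt_of_le hs0 with h0 | h0
  · refine ⟨1, fun N hN => (hvol1 _ fun x hx => hx.1).trans ?_⟩
    rw [← h0]
    have : (-((0 : ℝ) ^ 2 / rd ^ 2) + η) = η := by simp
    rw [this]
    exact Real.one_le_rpow (by exact_mod_cast hN) hη.le
  · obtain ⟨ρ, hρ⟩ : ∃ ρ, ρ = s / rd := ⟨_, rfl⟩
    have hρ0 : 0 < ρ := by rw [hρ]; positivity
    have hρ1 : ρ < 1 := by rw [hρ, div_lt_one hrd]; exact hs1
    have hρs : s ^ 2 / rd ^ 2 = ρ ^ 2 := by rw [hρ, div_pow]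
    rw [hρs]
    -- the level
    obtain ⟨q, hq1, hq2⟩ := exists_rat_btwn (show max (ρ / 2) (ρ - η / 4) < ρ from
      max_lt (by linarith) (by linarith))
    have hqa : ρ / 2 < q := (le_max_left _ _).trans_lt hq1
    have hqb : ρ - η / 4 < q := (le_max_right _ _).trans_lt hq1
    have hq0 : (0 : ℝ) < q := by linarith
    obtain ⟨δ, hδ1, hδ2⟩ := exists_rat_btwn (show (0 : ℝ) < min (η / 2) (ρ / q - 1) from
      lt_min (by linarith) (by rw [lt_sub_iff_add_lt, zero_add, lt_div_iff₀ hq0]; linarith))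
    have hδa : (δ : ℝ) < η / 2 := hδ2.trans_le (min_le_left _ _)
    have hδb : (δ : ℝ) < ρ / q - 1 := hδ2.trans_le (min_le_right _ _)
    obtain ⟨N0, h1⟩ := hU δ q (by exact_mod_cast hδ1) (by exact_mod_cast hq0) (by
      have : (q : ℝ) ≤ 1 := by linarith
      exact_mod_cast this)
    refine ⟨max N0 2, fun N hN => ?_⟩
    simp only [max_le_iff] at hN
    have hN1 : (1 : ℝ) ≤ N := by exact_mod_cast (by omega : 1 ≤ N)
    have hn := nrm_pos hN.2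
    have k1 := h1 N hN.1
    have hsub : {x : ℝ | x ∈ Icc (0 : ℝ) 1 ∧ s ≤ ‖nrm F N x‖} ⊆
        {x : ℝ | x ∈ Set.Ico (0 : ℝ) 1 ∧ (q : ℝ) * (1 + δ) * tg N ≤ ‖F N x‖} ∪ {1} := by
      rintro x ⟨hx, hx2⟩
      rcases eq_or_lt_of_le hx.2 with h | h
      · exact Or.inr h
      · left
        refine ⟨⟨hx.1, h⟩, ?_⟩
        rw [norm_nrm, le_div_iff₀ hn] at hx2
        refine le_trans ?_ hx2
        rw [tg_eq, ← mul_assoc]
        refine mul_le_mul_of_nonneg_right ?_ hn.le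
        have h3 : (q : ℝ) * (1 + δ) ≤ ρ := by
          have h4 : 1 + (δ : ℝ) ≤ ρ / q := by linarith
          rw [le_div_iff₀ hq0] at h4
          linarith
        have h4 : s = ρ * rd := by rw [hρ]; field_simp
        rw [h4]
        exact mul_le_mul_of_nonneg_right h3 hrd.le
    have k2 : volume.real {x : ℝ | x ∈ Icc (0 : ℝ) 1 ∧ s ≤ ‖nrm F N x‖} ≤
        volume.real {x : ℝ | x ∈ Set.Ico (0 : ℝ) 1 ∧ (q : ℝ) * (1 + δ) * tg N ≤ ‖F N x‖} + volume.real {(1 : ℝ)} := by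
      refine (measureReal_mono hsub ?_).trans (measureReal_union_le _ _)
      refine ((measure_mono (union_subset (fun x hx => ?_) (fun x hx => ?_))).trans_lt
        (by simp : volume (Icc (0 : ℝ) 1) < ⊤)).ne
      · exact ⟨hx.1.1, hx.1.2.le⟩
      · rw [mem_singleton_iff] at hx
        rw [hx]; simp
    have k3 : volume.real {(1 : ℝ)} = 0 := by simp [Measure.real]
    rw [k3, add_zero] at k2
    refine k2.trans (k1.trans (Real.rpow_le_rpow_of_exponent_le hN1 ?_))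
    nlinarith

/-- no larger values -/
theorem emB_of (F : ℕ → ℝ → ℂ) (hM : ∀ δ : ℚ, 0 < δ → ∃ N0 : ℕ, ∀ N : ℕ, N0 ≤ N → ∀ x : ℝ,
      ‖F N x‖ ≤ (1 + δ) * tg N) : EmB rd (nrm F) := by
  intro r hr
  have hrd := rd_pos
  obtain ⟨δ, hδ1, hδ2⟩ := exists_rat_btwn (show (0 : ℝ) < r / rd - 1 by
    rw [lt_sub_iff_add_lt, zero_add, lt_div_iff₀ hrd]; linarith)
  obtain ⟨N0, h1⟩ := hM δ (by exact_mod_cast hδ1)
  refine ⟨max N0 2, fun N hN x => ?_⟩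
  simp only [max_le_iff] at hN
  have hn := nrm_pos hN.2
  rw [norm_nrm, div_lt_iff₀ hn]
  refine (h1 N hN.1 x).trans_lt ?_
  rw [tg_eq, ← mul_assoc]
  refine mul_lt_mul_of_pos_right ?_ hn
  have h3 : 1 + (δ : ℝ) < r / rd := by linarith
  rwa [lt_div_iff₀ hrd] at h3

/-- lower bound -/
theorem loB_of (F : ℕ → ℝ → ℂ) (hM : ∀ δ : ℚ, 0 < δ → ∃ N0 : ℕ, ∀ N : ℕ, N0 ≤ N → ∀ x : ℝ,
      ‖F N x‖ ≤ (1 + δ) * tg N)
    (hL : ∀ (δ r a b : ℚ) (n : ℕ), 0 < δ → 0 < r → r ≤ 1 → 0 ≤ a → a < b → b ≤ 1 →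
      ∃ N0 : ℕ, ∀ N : ℕ, N0 ≤ N → (N : ℝ) ^ (-((r : ℝ) ^ 2) - δ) ≤ (volume {x : ℝ | (a : ℝ) < x ∧ x < (b : ℝ) ∧
        (r : ℝ) * (1 - δ) * tg N ≤ (((TopologicalSpace.denseSeq Circle n : Circle) : ℂ) * F N x).re}).toReal) :
    LoB rd (nrm F) := by
  intro a b u s η ha hab hb hu hs0 hs1 hη
  have hrd := rd_pos
  obtain ⟨ρ, hρ⟩ : ∃ ρ, ρ = s / rd := ⟨_, rfl⟩
  have hρ0 : 0 < ρ := by rw [hρ]; positivity
  have hρ1 : ρ < 1 := by rw [hρ, div_lt_one hrd]; exact hs1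
  have hρs : s ^ 2 / rd ^ 2 = ρ ^ 2 := by rw [hρ, div_pow]
  rw [hρs]
  obtain ⟨a', ha1, ha2⟩ := exists_rat_btwn hab
  obtain ⟨b', hb1, hb2⟩ := exists_rat_btwn ha2
  obtain ⟨q, hq1, hq2⟩ := exists_rat_btwn (show ρ < min 1 (ρ + η / 4) from lt_min hρ1 (by linarith))
  have hqa : (q : ℝ) < 1 := hq2.trans_le (min_le_left _ _)
  have hqb : (q : ℝ) < ρ + η / 4 := hq2.trans_le (min_le_right _ _)
  have hq0 : (0 : ℝ) < q := by linarith
  obtain ⟨δ, hδ1, hδ2⟩ := exists_rat_btwn (show (0 : ℝ) < min (η / 4) ((q - ρ) / 2) from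
    lt_min (by linarith) (by linarith))
  have hδa : (δ : ℝ) < η / 4 := hδ2.trans_le (min_le_left _ _)
  have hδb : (δ : ℝ) < (q - ρ) / 2 := hδ2.trans_le (min_le_right _ _)
  -- the direction
  obtain ⟨n, hn⟩ := (TopologicalSpace.denseRange_denseSeq Circle).exists_dist_lt
    (⟨u, mem_sphere_zero_iff_norm.2 hu⟩ : Circle) (show (0 : ℝ) < (q - ρ) / 4 by linarith)
  have hnu : ‖u - ((TopologicalSpace.denseSeq Circle n : Circle) : ℂ)‖ < (q - ρ) / 4 := by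
    rw [← dist_eq_norm]
    exact hn
  obtain ⟨N1, h1⟩ := hL δ q a' b' n (by exact_mod_cast hδ1) (by exact_mod_cast hq0)
    (by exact_mod_cast hqa.le) (by
      have : (0 : ℝ) ≤ a' := ha.trans ha1.le
      exact_mod_cast this) (by exact_mod_cast hb1) (by
      have : (b' : ℝ) ≤ 1 := hb2.le.trans hb
      exact_mod_cast this)
  obtain ⟨N2, h2⟩ := hM 1 one_pos
  refine ⟨max N1 (max N2 2), fun N hN => ?_⟩
  simp only [max_le_iff] at hN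
  obtain ⟨n1, n2, n3⟩ := hN
  have hN1 : (1 : ℝ) ≤ N := by exact_mod_cast (by omega : 1 ≤ N)
  have hnn := nrm_pos n3
  have k1 := h1 N n1
  have k2 := h2 N n2
  have hexp : (N : ℝ) ^ (-(ρ ^ 2) - η) ≤ (N : ℝ) ^ (-((q : ℝ) ^ 2) - δ) := by
    refine Real.rpow_le_rpow_of_exponent_le hN1 ?_
    nlinarith
  refine hexp.trans (k1.trans ?_)
  refine measureReal_mono ?_ ?_
  · rintro x ⟨hx1, hx2, hx3⟩
    refine ⟨⟨ha1.trans hx1, hx2.trans hb2⟩, ?_⟩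
    set v : ℂ := ((TopologicalSpace.denseSeq Circle n : Circle) : ℂ) with hv
    have e1 : (u * nrm F N x).re = (u * F N x).re / Real.sqrt (N * Real.log N) := by
      unfold nrm
      rw [← mul_div_assoc, Complex.div_ofReal_re]
    rw [e1, le_div_iff₀ hnn]
    have e2 : (u * F N x).re = (v * F N x).re + ((u - v) * F N x).re := by
      rw [← Complex.add_re]; congr 1; ring
    have e3 : -((q - ρ) / 4 * ((1 + ((1 : ℚ) : ℝ)) * tg N)) ≤ ((u - v) * F N x).re := by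
      have h3 := Complex.abs_re_le_norm ((u - v) * F N x)
      rw [norm_mul] at h3
      have h4 : ‖u - v‖ * ‖F N x‖ ≤ (q - ρ) / 4 * ((1 + ((1 : ℚ) : ℝ)) * tg N) :=
        mul_le_mul hnu.le (k2 x) (norm_nonneg _) (by linarith)
      have h5 := (abs_le.1 (h3.trans h4)).1
      linarith
    rw [e2]
    have htg : 0 < tg N := by rw [tg_eq]; positivity
    have e4 : s * Real.sqrt (N * Real.log N) = ρ * tg N := by
      rw [tg_eq, hρ]; field_simp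
    rw [e4]
    push_cast at e3
    have e5 : ρ * tg N ≤ ((q : ℝ) * (1 - δ) - (q - ρ) / 4 * 2) * tg N := by
      refine mul_le_mul_of_nonneg_right ?_ htg.le
      nlinarith
    nlinarith
  · refine ((measure_mono (fun x hx => ?_)).trans_lt (by simp : volume (Icc a b) < ⊤)).ne
    exact ⟨hx.1.1.le, hx.1.2.le⟩

/-- T9 -/
theorem ldp_as_of {Ω : Type*} [MeasurableSpace Ω] (μ : Measure Ω) (F : Ω → ℕ → ℝ → ℂ)
    (hU : ∀ δ r : ℝ, 0 < δ → 0 < r → r ≤ 1 → ∀ᵐ ω ∂μ, ∃ N0 : ℕ, ∀ N : ℕ, N0 ≤ N →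
      (volume {x : ℝ | x ∈ Set.Ico (0 : ℝ) 1 ∧ r * (1 + δ) * tg N ≤ ‖F ω N x‖}).toReal ≤ (N : ℝ) ^ (-(r ^ 2) + δ))
    (hM : ∀ δ : ℝ, 0 < δ → ∀ᵐ ω ∂μ, ∃ N0 : ℕ, ∀ N : ℕ, N0 ≤ N → ∀ x : ℝ, ‖F ω N x‖ ≤ (1 + δ) * tg N)
    (hL : ∀ (δ r : ℝ) (w : ℂ) (a b : ℝ), 0 < δ → 0 < r → r ≤ 1 → ‖w‖ = 1 → 0 ≤ a → a < b → b ≤ 1 →
      ∀ᵐ ω ∂μ, ∃ N0 : ℕ, ∀ N : ℕ, N0 ≤ N → (N : ℝ) ^ (-(r ^ 2) - δ) ≤
        (volume {x : ℝ | a < x ∧ x < b ∧ r * (1 - δ) * tg N ≤ (w * F ω N x).re}).toReal) :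
    ∀ᵐ ω ∂μ, ∀ a b : ℝ, 0 ≤ a → a < b → b ≤ 1 → ∀ O : Set ℂ, IsOpen O →
      ((∃ z ∈ O, ‖z‖ < rd) → Tendsto (fun N : ℕ =>
        Real.log (volume {x : ℝ | x ∈ Ioo a b ∧ nrm (F ω) N x ∈ O}).toReal / Real.log N)
        atTop (𝓝 (-(Real.pi ^ 2 / 6) * (Metric.infDist 0 O) ^ 2))) ∧
      (rd < Metric.infDist 0 O → ∀ᶠ N : ℕ in atTop, ∀ x : ℝ, nrm (F ω) N x ∉ O) := by
  have h1 : ∀ᵐ ω ∂μ, ∀ δ r : ℚ, 0 < δ → 0 < r → r ≤ 1 → ∃ N0 : ℕ, ∀ N : ℕ, N0 ≤ N →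
      (volume {x : ℝ | x ∈ Set.Ico (0 : ℝ) 1 ∧ (r : ℝ) * (1 + δ) * tg N ≤ ‖F ω N x‖}).toReal ≤
        (N : ℝ) ^ (-((r : ℝ) ^ 2) + δ) := by
    rw [ae_all_iff]; intro δ
    rw [ae_all_iff]; intro r
    simp only [eventually_imp_distrib_left]
    intro g1 g2 g3
    exact hU δ r (by exact_mod_cast g1) (by exact_mod_cast g2) (by exact_mod_cast g3)
  have h2 : ∀ᵐ ω ∂μ, ∀ δ : ℚ, 0 < δ → ∃ N0 : ℕ, ∀ N : ℕ, N0 ≤ N → ∀ x : ℝ, ‖F ω N x‖ ≤ (1 + δ) * tg N := by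
    rw [ae_all_iff]; intro δ
    simp only [eventually_imp_distrib_left]
    intro g1
    exact hM δ (by exact_mod_cast g1)
  have h3 : ∀ᵐ ω ∂μ, ∀ (δ r a b : ℚ) (n : ℕ), 0 < δ → 0 < r → r ≤ 1 → 0 ≤ a → a < b → b ≤ 1 →
      ∃ N0 : ℕ, ∀ N : ℕ, N0 ≤ N → (N : ℝ) ^ (-((r : ℝ) ^ 2) - δ) ≤ (volume {x : ℝ | (a : ℝ) < x ∧ x < (b : ℝ) ∧
        (r : ℝ) * (1 - δ) * tg N ≤ (((TopologicalSpace.denseSeq Circle n : Circle) : ℂ) * F ω N x).re}).toReal := by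
    rw [ae_all_iff]; intro δ
    rw [ae_all_iff]; intro r
    rw [ae_all_iff]; intro a
    rw [ae_all_iff]; intro b
    rw [ae_all_iff]; intro n
    simp only [eventually_imp_distrib_left]
    intro g1 g2 g3 g4 g5 g6
    exact hL δ r _ a b (by exact_mod_cast g1) (by exact_mod_cast g2) (by exact_mod_cast g3) (Circle.norm_coe _)
      (by exact_mod_cast g4) (by exact_mod_cast g5) (by exact_mod_cast g6)
  filter_upwards [h1, h2, h3] with ω k1 k2 k3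
  intro a b ha hab hb O hO
  have := ldp rd_pos (nrm (F ω)) (upB_of (F ω) k1) (emB_of (F ω) k2) (loB_of (F ω) k2 k3) ha hab hb O hO
  have e1 : -(Real.pi ^ 2 / 6) * (Metric.infDist (0 : ℂ) O) ^ 2 = -((Metric.infDist (0 : ℂ) O) ^ 2 / rd ^ 2) := by
    rw [rd_sq]
    have := Real.pi_pos
    field_simp
  rw [e1]
  exact this

end Pool.Agent.Helper11.EA
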