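import Pool.Agent.Helper11.RL.G

/-! Project EA, block E1: one block of the truncated second moment method. -/

set_option autoImplicit false

namespace Pool.Agent.Helper51.EA

open Finset Pool.Agent.Helper5.RM Pool.Agent.Helper11.RL

/-- averages of products -/
lemma av_prodg (S : Finset ℕ) (g : ℕ → ℝ → ℝ) :
    av S (fun T => ∏ p ∈ S, g p (sg T p)) = ∏ p ∈ S, (g p 1 + g p (-1)) / 2 := by
  classical
  induction S using Finset.induction_on with
  | empty => simp [av_empty]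
  | insert q S hq ih =>
    rw [av_insert hq, Finset.prod_insert hq]
    have e1 : av S (fun T => ∏ p ∈ insert q S, g p (sg T p)) =
        g q 1 * av S (fun T => ∏ p ∈ S, g p (sg T p)) := by
      rw [← av_mul_left]
      refine av_congr fun T hT => ?_
      rw [Finset.prod_insert hq, sg_not_mem (fun h => hq (hT h))]
    have e2 : av S (fun T => ∏ p ∈ insert q S, g p (sg (insert q T) p)) =
        g q (-1) * av S (fun T => ∏ p ∈ S, g p (sg T p)) := by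
      rw [← av_mul_left]
      refine av_congr fun T hT => ?_
      rw [Finset.prod_insert hq, sg_mem (Finset.mem_insert_self q T)]
      have h1 : ∏ p ∈ S, g p (sg (insert q T) p) = ∏ p ∈ S, g p (sg T p) :=
        Finset.prod_congr rfl fun p hp => by rw [sg_insert_of_ne (ne_of_mem_of_not_mem hp hq)]
      rw [h1]
    rw [e1, e2, ih]
    ring

lemma one_add_le_exp3 {u : ℝ} (hu : |u| ≤ 1 / 2) : 1 + u ≤ Real.exp (u - u ^ 2 / 2 + |u| ^ 3) := by
  have h0 := abs_le.1 hu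
  rcases le_total 0 u with h | h
  · rw [abs_of_nonneg h]
    have hv : 0 ≤ u - u ^ 2 / 2 + u ^ 3 := by nlinarith [h0.2, pow_nonneg h 3]
    refine le_trans ?_ (Real.quadratic_le_exp_of_nonneg hv)
    have h1 : u - u ^ 2 / 2 ≤ u - u ^ 2 / 2 + u ^ 3 := by linarith [pow_nonneg h 3]
    have h2 : 0 ≤ u - u ^ 2 / 2 := by nlinarith [h0.2]
    have h3 := pow_le_pow_left₀ h2 h1 2
    nlinarith [pow_nonneg h 3, pow_nonneg h 4]
  · obtain ⟨v, rfl⟩ : ∃ v, u = -v := ⟨-u, by ring⟩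
    have hv0 : 0 ≤ v := by linarith
    have hv1 : v ≤ 1 / 2 := by linarith [h0.1]
    have h2 : Real.log (1 - v) ≤ -v - v ^ 2 / 2 := by
      have h5 := sum_le_hasSum (Finset.range 2) (fun i _ => by positivity)
        (Real.hasSum_pow_div_log_of_abs_lt_one (x := v) (by rw [abs_of_nonneg hv0]; linarith))
      rw [Finset.sum_range_succ, Finset.sum_range_succ, Finset.sum_range_zero] at h5
      norm_num at h5
      linarith
    have h8 : Real.exp (Real.log (1 - v)) = 1 - v := Real.exp_log (by linarith)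
    have h9 : 1 + -v = 1 - v := by ring
    rw [h9, ← h8, abs_neg, abs_of_nonneg hv0]
    apply Real.exp_le_exp.2
    nlinarith [h2, pow_nonneg hv0 3]

/-- one factor -/
lemma factor_le {t σ : ℝ} (ht : |t| ≤ 1 / 2) :
    ((1 + t) * Real.exp (σ * t) + (1 - t) * Real.exp (-(σ * t))) / 2 ≤
      Real.exp ((σ + σ ^ 2 / 2) * t ^ 2 + |t| ^ 3) := by
  have h1 := one_add_le_exp3 ht
  have h2 := one_add_le_exp3 (u := -t) (by rw [abs_neg]; exact ht)
  rw [abs_neg, neg_sq] at h2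
  have h3 := mul_le_mul_of_nonneg_right h1 (Real.exp_pos (σ * t)).le
  have h4 := mul_le_mul_of_nonneg_right h2 (Real.exp_pos (-(σ * t))).le
  rw [← Real.exp_add] at h3 h4
  have h5 : Real.exp (t - t ^ 2 / 2 + |t| ^ 3 + σ * t) = Real.exp (-(t ^ 2 / 2) + |t| ^ 3) * Real.exp ((1 + σ) * t) := by
    rw [← Real.exp_add]; congr 1; ring
  have h6 : Real.exp (-t - t ^ 2 / 2 + |t| ^ 3 + -(σ * t)) = Real.exp (-(t ^ 2 / 2) + |t| ^ 3) * Real.exp (-((1 + σ) * t)) := by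
    rw [← Real.exp_add]; congr 1; ring
  have h7 := Real.cosh_le_exp_half_sq ((1 + σ) * t)
  rw [Real.cosh_eq] at h7
  have h8 : Real.exp ((σ + σ ^ 2 / 2) * t ^ 2 + |t| ^ 3) =
      Real.exp (-(t ^ 2 / 2) + |t| ^ 3) * Real.exp (((1 + σ) * t) ^ 2 / 2) := by
    rw [← Real.exp_add]; congr 1; ring
  rw [h8]
  have h9 := mul_le_mul_of_nonneg_left h7 (Real.exp_pos (-(t ^ 2 / 2) + |t| ^ 3)).le
  rw [h5] at h3
  rw [h6] at h4
  linarith

/-- exponential moments under the tilted law -/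
lemma tilt_le (S : Finset ℕ) (t : ℕ → ℝ) (σ : ℝ) (ht : ∀ p ∈ S, |t p| ≤ 1 / 2) :
    av S (fun T => (∏ p ∈ S, (1 + sg T p * t p)) * Real.exp (σ * ∑ p ∈ S, sg T p * t p)) ≤
      Real.exp ((σ + σ ^ 2 / 2) * ∑ p ∈ S, t p ^ 2 + ∑ p ∈ S, |t p| ^ 3) := by
  have h1 : (fun T => (∏ p ∈ S, (1 + sg T p * t p)) * Real.exp (σ * ∑ p ∈ S, sg T p * t p)) =
      fun T => ∏ p ∈ S, ((1 + sg T p * t p) * Real.exp (σ * (sg T p * t p))) := by
    funext T
    rw [Finset.prod_mul_distrib, Finset.mul_sum, Real.exp_sum]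
  rw [h1, av_prodg S (fun p x => (1 + x * t p) * Real.exp (σ * (x * t p)))]
  rw [Finset.mul_sum, ← Finset.sum_add_distrib, Real.exp_sum]
  refine Finset.prod_le_prod (fun p hp => ?_) fun p hp => ?_
  · have h2 := abs_le.1 (ht p hp)
    have e1 : 0 ≤ 1 + 1 * t p := by linarith
    have e2 : 0 ≤ 1 + -1 * t p := by linarith
    have := Real.exp_pos (σ * (1 * t p))
    have := Real.exp_pos (σ * (-1 * t p))
    positivity
  · refine le_trans (le_of_eq ?_) (factor_le (ht p hp))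
    have e1 : (1 : ℝ) * t p = t p := one_mul _
    have e2 : σ * (-1 * t p) = -(σ * t p) := by ring
    have e3 : 1 + -1 * t p = 1 - t p := by ring
    rw [e1, e2, e3]

theorem step (S : Finset ℕ) (a : ℕ → ℕ → ℝ) (J : ℕ) (I : Finset ℕ) (hI : I ⊆ range J) (w : ℕ → ℝ)
    (lam τ ℓ s ϑ A Wm : ℝ) (hw0 : ∀ j ∈ I, 0 ≤ w j) (hwm : ∀ j ∈ I, w j ≤ Wm) (hW : 0 < ∑ j ∈ I, w j)
    (hlam : 0 < lam) (hA : 0 ≤ A)
    (ho : ∀ p ∈ S, ∀ p' ∈ S, p ≠ p' → ∑ j ∈ range J, a p j * a p' j = 0)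
    (hn : ∀ p ∈ S, ∑ j ∈ range J, a p j ^ 2 ≤ J * A)
    (hτ0 : 0 < τ) (hτ1 : τ ≤ 1 / 2) (ht : ∀ p ∈ S, ∀ j ∈ I, |lam * a p j| ≤ τ) (hℓ : 0 ≤ ℓ) (hτℓ : τ * (ℓ + 1) ≤ 1)
    (hv : ∀ j ∈ I, |∑ p ∈ S, (lam * a p j) ^ 2 - ℓ| ≤ τ) (hϑ0 : 0 < ϑ) (hϑ1 : ϑ ≤ 1) :
    pr S (fun T => ∑ j ∈ I, (if |lam * ∑ p ∈ S, sg T p * a p j - ℓ| ≤ s then
        w j * ∏ p ∈ S, (1 + sg T p * (lam * a p j)) else 0) < (1 / 4) * ∑ j ∈ I, w j) ≤
      4 * (lam ^ 2 * A * J * Wm * (1 + (ℓ + 1) * Real.exp (ℓ + 1))) / (∑ j ∈ I, w j) +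
        64 * Real.exp (-(ϑ * s) + ϑ ^ 2 * ℓ / 2) := by
  classical
  obtain ⟨W0, hW0⟩ : ∃ W0, W0 = ∑ j ∈ I, w j := ⟨_, rfl⟩
  rw [← hW0] at hW ⊢
  obtain ⟨L, hL⟩ : ∃ L, L = ℓ + 1 := ⟨_, rfl⟩
  rw [← hL]
  have hL0 : 0 ≤ L := by linarith
  have hWm : 0 ≤ Wm := by
    obtain ⟨j, hj, -⟩ : ∃ j ∈ I, 0 < w j := by
      by_contra hcon
      push Not at hcon
      have : W0 ≤ 0 := by rw [hW0]; exact Finset.sum_nonpos hcon
      linarith
    exact (hw0 j hj).trans (hwm j hj)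
  set t : ℕ → ℕ → ℝ := fun j p => lam * a p j with htdef
  have htab : ∀ j ∈ I, ∀ p ∈ S, |t j p| ≤ 1 / 2 := fun j hj p hp => (ht p hp j hj).trans hτ1
  have hsum : ∀ j ∈ I, ∑ p ∈ S, t j p ^ 2 ≤ L := by
    intro j hj
    have := (abs_le.1 (hv j hj)).2
    have e : ∑ p ∈ S, t j p ^ 2 = ∑ p ∈ S, (lam * a p j) ^ 2 := rfl
    rw [e]
    linarith
  set R : Finset ℕ → ℕ → ℝ := fun T j => ∏ p ∈ S, (1 + sg T p * t j p) with hR
  have hR0 : ∀ T, ∀ j ∈ I, 0 ≤ R T j := by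
    intro T j hj
    refine Finset.prod_nonneg fun p hp => ?_
    have h5 : |sg T p * t j p| ≤ 1 / 2 := by
      rw [abs_mul, abs_sg, one_mul]
      exact htab j hj p hp
    have := (abs_le.1 h5).1
    linarith
  set Z : Finset ℕ → ℝ := fun T => ∑ j ∈ I, w j * R T j with hZ
  have hZ1 : av S Z = W0 := by
    rw [hZ, av_sum, hW0]
    refine Finset.sum_congr rfl fun j _ => ?_
    rw [av_mul_left]
    simp only [hR, av_riesz, mul_one]
  have hZ2 : av S (fun T => Z T ^ 2) = ∑ i ∈ I, ∑ j ∈ I, w i * w j * ∏ p ∈ S, (1 + t i p * t j p) := by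
    have h1 : (fun T => Z T ^ 2) = fun T => ∑ i ∈ I, ∑ j ∈ I, (w i * w j) * (R T i * R T j) := by
      funext T
      rw [sq, hZ, Finset.sum_mul_sum]
      exact Finset.sum_congr rfl fun i _ => Finset.sum_congr rfl fun j _ => by ring
    rw [h1, av_sum]
    refine Finset.sum_congr rfl fun i _ => ?_
    rw [av_sum]
    refine Finset.sum_congr rfl fun j _ => ?_
    rw [av_mul_left]
    congr 1
    exact av_riesz2 S (t i) (t j)
  set c : ℕ → ℕ → ℝ := fun i j => ∑ p ∈ S, t i p * t j p with hc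
  have hcL : ∀ i ∈ I, ∀ j ∈ I, c i j ≤ L := by
    intro i hi j hj
    have h1 : c i j ≤ ∑ p ∈ S, (t i p ^ 2 + t j p ^ 2) / 2 := by
      refine Finset.sum_le_sum fun p _ => ?_
      nlinarith [sq_nonneg (t i p - t j p)]
    rw [← Finset.sum_div, Finset.sum_add_distrib] at h1
    have h2 := hsum i hi
    have h3 := hsum j hj
    linarith
  have hprod : ∀ i ∈ I, ∀ j ∈ I, ∏ p ∈ S, (1 + t i p * t j p) ≤ 1 + c i j + c i j ^ 2 * Real.exp L := by
    intro i hi j hj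
    refine le_trans ?_ (exp_le_quad (hcL i hi j hj) hL0)
    rw [hc, Real.exp_sum]
    refine Finset.prod_le_prod (fun p hp => ?_) fun p _ => ?_
    · have h1 := abs_le.1 (htab i hi p hp)
      have h2 := abs_le.1 (htab j hj p hp)
      nlinarith
    · have := Real.add_one_le_exp (t i p * t j p)
      linarith
  obtain ⟨M, hM⟩ : ∃ M : ℝ, M = J * A := ⟨_, rfl⟩
  have hM0 : 0 ≤ M := by rw [hM]; positivity
  have hn' : ∀ p ∈ S, ∑ j ∈ range J, a p j ^ 2 ≤ M := by rw [hM]; exact hn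
  have hww : ∑ j ∈ I, w j ^ 2 ≤ Wm * W0 := by
    rw [hW0, Finset.mul_sum]
    refine Finset.sum_le_sum fun j hj => ?_
    rw [sq]
    exact mul_le_mul_of_nonneg_right (hwm j hj) (hw0 j hj)
  have hS1 : ∑ i ∈ I, ∑ j ∈ I, w i * w j * c i j ≤ M * (lam ^ 2 * (Wm * W0)) := by
    have h1 : ∑ i ∈ I, ∑ j ∈ I, w i * w j * c i j = ∑ p ∈ S, (∑ j ∈ I, (w j * lam) * a p j) ^ 2 := by
      have h2 : ∀ p ∈ S, (∑ j ∈ I, (w j * lam) * a p j) ^ 2 = ∑ i ∈ I, ∑ j ∈ I, w i * w j * (t i p * t j p) := by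
        intro p _
        rw [sq, Finset.sum_mul_sum]
        exact Finset.sum_congr rfl fun i _ => Finset.sum_congr rfl fun j _ => by rw [htdef]; ring
      rw [Finset.sum_congr rfl h2]
      symm
      rw [Finset.sum_comm]
      refine Finset.sum_congr rfl fun i _ => ?_
      rw [Finset.sum_comm]
      refine Finset.sum_congr rfl fun j _ => ?_
      rw [hc, Finset.mul_sum]
    rw [h1]
    refine (bessel hM0 ho hn' hI (fun j => w j * lam)).trans ?_
    apply mul_le_mul_of_nonneg_left _ hM0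
    have h3 : ∑ j ∈ I, (w j * lam) ^ 2 = lam ^ 2 * ∑ j ∈ I, w j ^ 2 := by
      rw [Finset.mul_sum]
      exact Finset.sum_congr rfl fun j _ => by ring
    rw [h3]
    exact mul_le_mul_of_nonneg_left hww (sq_nonneg _)
  have hS2 : ∑ i ∈ I, ∑ j ∈ I, w i * w j * c i j ^ 2 ≤ M * (lam ^ 2 * (Wm * W0)) * L := by
    have h1 : ∀ i ∈ I, ∑ j ∈ I, w i * w j * c i j ^ 2 ≤ w i * (Wm * (lam ^ 2 * (M * L))) := by
      intro i hi
      have h2 : ∀ j ∈ I, w i * w j * c i j ^ 2 ≤ w i * (Wm * (lam ^ 2 * (∑ p ∈ S, t i p * a p j) ^ 2)) := by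
        intro j hj
        have h3 : c i j = lam * ∑ p ∈ S, t i p * a p j := by
          rw [hc, Finset.mul_sum]
          exact Finset.sum_congr rfl fun p _ => by rw [htdef]; ring
        rw [h3, mul_pow, mul_assoc]
        apply mul_le_mul_of_nonneg_left _ (hw0 i hi)
        exact mul_le_mul_of_nonneg_right (hwm j hj) (by positivity)
      refine (Finset.sum_le_sum h2).trans ?_
      rw [← Finset.mul_sum, ← Finset.mul_sum, ← Finset.mul_sum]
      have h4 : ∑ j ∈ I, (∑ p ∈ S, t i p * a p j) ^ 2 ≤ M * L := by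
        refine (Finset.sum_le_sum_of_subset_of_nonneg hI fun _ _ _ => sq_nonneg _).trans ?_
        refine (sq_norm ho hn' (t i)).trans ?_
        exact mul_le_mul_of_nonneg_left (hsum i hi) hM0
      apply mul_le_mul_of_nonneg_left _ (hw0 i hi)
      apply mul_le_mul_of_nonneg_left _ hWm
      exact mul_le_mul_of_nonneg_left h4 (sq_nonneg _)
    refine (Finset.sum_le_sum h1).trans (le_of_eq ?_)
    rw [← Finset.sum_mul, ← hW0]
    ring
  have hvar : av S (fun T => (Z T - W0) ^ 2) ≤ M * (lam ^ 2 * (Wm * W0)) * (1 + L * Real.exp L) := by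
    have h1 : (fun T => (Z T - W0) ^ 2) = fun T => Z T ^ 2 + ((-2 * W0) * Z T + W0 ^ 2) := by
      funext T; ring
    rw [h1, av_add, av_add, av_mul_left, av_const, hZ1, hZ2]
    have h2 : ∑ i ∈ I, ∑ j ∈ I, w i * w j * ∏ p ∈ S, (1 + t i p * t j p) ≤
        ∑ i ∈ I, ∑ j ∈ I, w i * w j * (1 + c i j + c i j ^ 2 * Real.exp L) :=
      Finset.sum_le_sum fun i hi => Finset.sum_le_sum fun j hj =>
        mul_le_mul_of_nonneg_left (hprod i hi j hj) (mul_nonneg (hw0 i hi) (hw0 j hj))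
    have h3 : ∑ i ∈ I, ∑ j ∈ I, w i * w j * (1 + c i j + c i j ^ 2 * Real.exp L) =
        W0 ^ 2 + ∑ i ∈ I, ∑ j ∈ I, w i * w j * c i j + (∑ i ∈ I, ∑ j ∈ I, w i * w j * c i j ^ 2) * Real.exp L := by
      have h5 : W0 ^ 2 = ∑ i ∈ I, ∑ j ∈ I, w i * w j := by rw [hW0, sq, Finset.sum_mul_sum]
      rw [h5, Finset.sum_mul, ← Finset.sum_add_distrib, ← Finset.sum_add_distrib]
      refine Finset.sum_congr rfl fun i _ => ?_
      rw [Finset.sum_mul, ← Finset.sum_add_distrib, ← Finset.sum_add_distrib]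
      exact Finset.sum_congr rfl fun j _ => by ring
    have h4 := mul_le_mul_of_nonneg_right hS2 (Real.exp_pos L).le
    rw [h3] at h2
    nlinarith [h2, hS1, h4]
  -- the tails
  set B : Finset ℕ → ℝ := fun T => ∑ j ∈ I, w j * (if |lam * ∑ p ∈ S, sg T p * a p j - ℓ| ≤ s then 0 else R T j) with hB
  have htail : ∀ j ∈ I, av S (fun T => if |lam * ∑ p ∈ S, sg T p * a p j - ℓ| ≤ s then 0 else R T j) ≤
      16 * Real.exp (-(ϑ * s) + ϑ ^ 2 * ℓ / 2) := by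
    intro j hj
    have hlin : ∀ T, lam * ∑ p ∈ S, sg T p * a p j = ∑ p ∈ S, sg T p * t j p := by
      intro T
      rw [Finset.mul_sum]
      exact Finset.sum_congr rfl fun p _ => by rw [htdef]; ring
    have h1 : av S (fun T => if |lam * ∑ p ∈ S, sg T p * a p j - ℓ| ≤ s then 0 else R T j) ≤
        av S (fun T => Real.exp (-(ϑ * s) - ϑ * ℓ) * (R T j * Real.exp (ϑ * ∑ p ∈ S, sg T p * t j p)) +
          Real.exp (-(ϑ * s) + ϑ * ℓ) * (R T j * Real.exp (-ϑ * ∑ p ∈ S, sg T p * t j p))) := by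
      refine av_mono fun T _ => ?_
      have hRT := hR0 T j hj
      rw [hlin T]
      set X := ∑ p ∈ S, sg T p * t j p with hX
      have e1 : Real.exp (-(ϑ * s) - ϑ * ℓ) * (R T j * Real.exp (ϑ * X)) = R T j * Real.exp (ϑ * (X - ℓ - s)) := by
        rw [mul_left_comm, ← Real.exp_add]; congr 2; ring
      have e2 : Real.exp (-(ϑ * s) + ϑ * ℓ) * (R T j * Real.exp (-ϑ * X)) = R T j * Real.exp (ϑ * (ℓ - X - s)) := by
        rw [mul_left_comm, ← Real.exp_add]; congr 2; ring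
      rw [e1, e2]
      split_ifs with h
      · have := Real.exp_pos (ϑ * (X - ℓ - s))
        have := Real.exp_pos (ϑ * (ℓ - X - s))
        positivity
      · rw [not_le, lt_abs] at h
        rcases h with h | h
        · have h5 : 1 ≤ Real.exp (ϑ * (X - ℓ - s)) := Real.one_le_exp (mul_nonneg hϑ0.le (by linarith))
          have h6 := mul_le_mul_of_nonneg_left h5 hRT
          have h7 := mul_nonneg hRT (Real.exp_pos (ϑ * (ℓ - X - s))).le
          linarith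
        · have h5 : 1 ≤ Real.exp (ϑ * (ℓ - X - s)) := Real.one_le_exp (mul_nonneg hϑ0.le (by linarith))
          have h6 := mul_le_mul_of_nonneg_left h5 hRT
          have h7 := mul_nonneg hRT (Real.exp_pos (ϑ * (X - ℓ - s))).le
          linarith
    refine h1.trans ?_
    rw [av_add, av_mul_left, av_mul_left]
    have h2 := tilt_le S (t j) ϑ (htab j hj)
    have h3 := tilt_le S (t j) (-ϑ) (htab j hj)
    have hv' := abs_le.1 (hv j hj)
    have hv1 : ∑ p ∈ S, t j p ^ 2 - ℓ ≤ τ := hv'.2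
    have hv2 : -τ ≤ ∑ p ∈ S, t j p ^ 2 - ℓ := hv'.1
    have hcube : ∑ p ∈ S, |t j p| ^ 3 ≤ 1 := by
      have h4 : ∑ p ∈ S, |t j p| ^ 3 ≤ ∑ p ∈ S, τ * t j p ^ 2 := by
        refine Finset.sum_le_sum fun p hp => ?_
        have h5 : |t j p| ^ 3 = |t j p| * t j p ^ 2 := by rw [← sq_abs]; ring
        rw [h5]
        exact mul_le_mul_of_nonneg_right (ht p hp j hj) (sq_nonneg _)
      rw [← Finset.mul_sum] at h4
      have h5 := mul_le_mul_of_nonneg_left (hsum j hj) hτ0.le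
      rw [hL] at h5
      linarith
    have hexp : Real.exp (7 / 4) ≤ 8 := by
      have h6 := Real.exp_one_lt_d9
      have h7 : Real.exp (7 / 4) ≤ Real.exp 2 := Real.exp_le_exp.2 (by norm_num)
      have h8 : Real.exp 2 = Real.exp 1 * Real.exp 1 := by rw [← Real.exp_add]; norm_num
      have h9 := Real.exp_pos 1
      nlinarith
    have h4 : Real.exp (-(ϑ * s) - ϑ * ℓ) * av S (fun T => R T j * Real.exp (ϑ * ∑ p ∈ S, sg T p * t j p)) ≤
        8 * Real.exp (-(ϑ * s) + ϑ ^ 2 * ℓ / 2) := by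
      calc Real.exp (-(ϑ * s) - ϑ * ℓ) * av S (fun T => R T j * Real.exp (ϑ * ∑ p ∈ S, sg T p * t j p))
          ≤ Real.exp (-(ϑ * s) - ϑ * ℓ) * Real.exp ((ϑ + ϑ ^ 2 / 2) * ∑ p ∈ S, t j p ^ 2 + ∑ p ∈ S, |t j p| ^ 3) :=
            mul_le_mul_of_nonneg_left h2 (Real.exp_pos _).le
        _ = Real.exp (-(ϑ * s) - ϑ * ℓ + ((ϑ + ϑ ^ 2 / 2) * ∑ p ∈ S, t j p ^ 2 + ∑ p ∈ S, |t j p| ^ 3)) :=
            (Real.exp_add _ _).symm
        _ ≤ Real.exp (7 / 4 + (-(ϑ * s) + ϑ ^ 2 * ℓ / 2)) := by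
            apply Real.exp_le_exp.2
            have h6 : (ϑ + ϑ ^ 2 / 2) * ∑ p ∈ S, t j p ^ 2 ≤ (ϑ + ϑ ^ 2 / 2) * (ℓ + τ) :=
              mul_le_mul_of_nonneg_left (by linarith) (by positivity)
            have h7 : (ϑ + ϑ ^ 2 / 2) * τ ≤ 3 / 4 := by
              have h8 : ϑ + ϑ ^ 2 / 2 ≤ 3 / 2 := by nlinarith
              nlinarith
            nlinarith
        _ = Real.exp (7 / 4) * Real.exp (-(ϑ * s) + ϑ ^ 2 * ℓ / 2) := by rw [Real.exp_add]
        _ ≤ _ := mul_le_mul_of_nonneg_right hexp (Real.exp_pos _).le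
    have h5 : Real.exp (-(ϑ * s) + ϑ * ℓ) * av S (fun T => R T j * Real.exp (-ϑ * ∑ p ∈ S, sg T p * t j p)) ≤
        8 * Real.exp (-(ϑ * s) + ϑ ^ 2 * ℓ / 2) := by
      calc Real.exp (-(ϑ * s) + ϑ * ℓ) * av S (fun T => R T j * Real.exp (-ϑ * ∑ p ∈ S, sg T p * t j p))
          ≤ Real.exp (-(ϑ * s) + ϑ * ℓ) * Real.exp ((-ϑ + (-ϑ) ^ 2 / 2) * ∑ p ∈ S, t j p ^ 2 + ∑ p ∈ S, |t j p| ^ 3) :=
            mul_le_mul_of_nonneg_left h3 (Real.exp_pos _).le
        _ = Real.exp (-(ϑ * s) + ϑ * ℓ + ((-ϑ + (-ϑ) ^ 2 / 2) * ∑ p ∈ S, t j p ^ 2 + ∑ p ∈ S, |t j p| ^ 3)) :=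
            (Real.exp_add _ _).symm
        _ ≤ Real.exp (7 / 4 + (-(ϑ * s) + ϑ ^ 2 * ℓ / 2)) := by
            apply Real.exp_le_exp.2
            have hco : 0 ≤ ϑ - ϑ ^ 2 / 2 := by nlinarith
            have h6 : (ϑ - ϑ ^ 2 / 2) * (ℓ - τ) ≤ (ϑ - ϑ ^ 2 / 2) * ∑ p ∈ S, t j p ^ 2 :=
              mul_le_mul_of_nonneg_left (by linarith) hco
            have h7 : (ϑ - ϑ ^ 2 / 2) * τ ≤ 3 / 4 := by
              have h8 : ϑ - ϑ ^ 2 / 2 ≤ 1 := by nlinarith
              nlinarith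
            nlinarith
        _ = Real.exp (7 / 4) * Real.exp (-(ϑ * s) + ϑ ^ 2 * ℓ / 2) := by rw [Real.exp_add]
        _ ≤ _ := mul_le_mul_of_nonneg_right hexp (Real.exp_pos _).le
    linarith
  have hBav : av S B ≤ W0 * (16 * Real.exp (-(ϑ * s) + ϑ ^ 2 * ℓ / 2)) := by
    rw [hB, av_sum, hW0, Finset.sum_mul]
    refine Finset.sum_le_sum fun j hj => ?_
    rw [av_mul_left]
    exact mul_le_mul_of_nonneg_left (htail j hj) (hw0 j hj)
  have hB0 : ∀ T, 0 ≤ B T := by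
    intro T
    refine Finset.sum_nonneg fun j hj => mul_nonneg (hw0 j hj) ?_
    split_ifs
    · exact le_rfl
    · exact hR0 T j hj
  have hsplit : ∀ T, Z T = (∑ j ∈ I, (if |lam * ∑ p ∈ S, sg T p * a p j - ℓ| ≤ s then
      w j * ∏ p ∈ S, (1 + sg T p * (lam * a p j)) else 0)) + B T := by
    intro T
    rw [hB, hZ, ← Finset.sum_add_distrib]
    refine Finset.sum_congr rfl fun j _ => ?_
    split_ifs with h
    · rw [mul_zero, add_zero]
    · rw [zero_add]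
  have h1 : pr S (fun T => W0 ^ 2 / 4 ≤ (Z T - W0) ^ 2) ≤
      M * (lam ^ 2 * (Wm * W0)) * (1 + L * Real.exp L) / (W0 ^ 2 / 4) :=
    markov (fun T _ => sq_nonneg _) (by positivity) hvar
  have h2 : pr S (fun T => W0 / 4 ≤ B T) ≤ W0 * (16 * Real.exp (-(ϑ * s) + ϑ ^ 2 * ℓ / 2)) / (W0 / 4) :=
    markov (fun T _ => hB0 T) (by positivity) hBav
  have h3 : pr S (fun T => ∑ j ∈ I, (if |lam * ∑ p ∈ S, sg T p * a p j - ℓ| ≤ s then
        w j * ∏ p ∈ S, (1 + sg T p * (lam * a p j)) else 0) < (1 / 4) * W0) ≤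
      pr S (fun T => W0 ^ 2 / 4 ≤ (Z T - W0) ^ 2) + pr S (fun T => W0 / 4 ≤ B T) := by
    refine (pr_mono fun T _ hT => ?_).trans (pr_or _ _ _)
    by_contra hcon
    rw [not_or, not_le, not_le] at hcon
    have h4 := hsplit T
    have h5 : Z T < W0 / 2 := by linarith [hcon.2]
    have h6 : W0 ^ 2 / 4 ≤ (Z T - W0) ^ 2 := by nlinarith
    linarith [hcon.1]
  refine h3.trans (add_le_add (h1.trans (le_of_eq ?_)) (h2.trans (le_of_eq ?_)))
  · rw [hM]
    field_simp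
  · field_simp
    ring

end Pool.Agent.Helper51.EA
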